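import Mathlib

/-!
# Deleting an element of a poset can raise the average heights by more than `n - 1` in total

The counterexample has `111` elements: two chains `a_0 < ⋯ < a_29` and `b_0 < ⋯ < b_79` and an
element `x` with `a_7 < x < b_25`.
-/

namespace Pool.Agent.Results.MP_693840_co.Disproof

/-! ### Definitions of the problem -/

section Defs

open Classical in
/-- The set of linear extensions of the finite poset `P`: the bijections `f` from `P` to
`{0, …, n-1}`, `n = |P|`, such that `u < v` implies `f u < f v`. -/
noncomputable def linExts (P : Type*) [Fintype P] [PartialOrder P] :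
    Finset (P ≃ Fin (Fintype.card P)) :=
  Finset.univ.filter (fun f => StrictMono f)

/-- The average height `h_P(y)`: the average over all linear extensions `f` of the position
`f y + 1 ∈ {1, …, n}`. -/
noncomputable def avgHeight (P : Type*) [Fintype P] [PartialOrder P] (y : P) : ℚ :=
  (∑ f ∈ linExts P, (((f y : ℕ) : ℚ) + 1)) / ((linExts P).card : ℚ)

open Classical in
/-- The sum over `y ≠ x` of `max (h_P(y) - h_{P-x}(y)) 0`. -/
noncomputable def deletionSum (P : Type*) [Fintype P] [PartialOrder P] (x : P) : ℚ :=
  ∑ y : {y : P // y ≠ x}, max (avgHeight P y.1 - avgHeight {y : P // y ≠ x} y) 0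

end Defs

/-! ### Linear extensions as lists -/

section Lists

variable {α : Type*} [DecidableEq α] [PartialOrder α] [DecidableLT α]

/-- The minimal elements of `R`. -/
def mins (R : Finset α) : Finset α := R.filter (fun m => ∀ y ∈ R, ¬ y < m)

/-- The orderings of the finite set `R` (as lists of length `n`) that extend the order. -/
def ords : ℕ → Finset α → Finset (List α)
  | 0, R => if R = ∅ then {[]} else ∅
  | n + 1, R => (mins R).biUnion (fun m => (ords n (R.erase m)).image (List.cons m))

lemma mem_ords (n : ℕ) (R : Finset α) (l : List α) :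
    l ∈ ords n R ↔ l.length = n ∧ l.Nodup ∧ l.toFinset = R ∧
      l.Pairwise (fun a b => ¬ b < a) := by
  induction n generalizing R l with
  | zero =>
    unfold ords
    constructor
    · intro h
      split_ifs at h with hR
      · rw [Finset.mem_singleton] at h
        subst h; simp [hR]
      · simp at h
    · rintro ⟨h1, -, h3, -⟩
      rw [List.length_eq_zero_iff] at h1
      subst h1
      rw [List.toFinset_nil] at h3
      simp [← h3]
  | succ n ih =>
    unfold ords
    simp only [Finset.mem_biUnion, Finset.mem_image, mins, Finset.mem_filter]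
    constructor
    · rintro ⟨m, ⟨hm, hmin⟩, l', hl', rfl⟩
      rw [ih] at hl'
      obtain ⟨h1, h2, h3, h4⟩ := hl'
      have hmem : ∀ y, y ∈ l' ↔ y ∈ R.erase m := fun y => by rw [← h3, List.mem_toFinset]
      refine ⟨by simp [h1], ?_, ?_, ?_⟩
      · rw [List.nodup_cons]
        exact ⟨fun h => by simpa using (hmem m).1 h, h2⟩
      · rw [List.toFinset_cons, h3, Finset.insert_erase hm]
      · rw [List.pairwise_cons]
        exact ⟨fun y hy => hmin y (Finset.mem_of_mem_erase ((hmem y).1 hy)), h4⟩
    · rintro ⟨h1, h2, h3, h4⟩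
      cases l with
      | nil => simp at h1
      | cons m l' =>
        rw [List.nodup_cons] at h2
        rw [List.pairwise_cons] at h4
        rw [List.toFinset_cons] at h3
        have hm : m ∈ R := by rw [← h3]; exact Finset.mem_insert_self _ _
        refine ⟨m, ⟨hm, fun y hy => ?_⟩, l', ?_, rfl⟩
        · rw [← h3, Finset.mem_insert, List.mem_toFinset] at hy
          rcases hy with rfl | hy
          · exact lt_irrefl _
          · exact h4.1 y hy
        · rw [ih]
          refine ⟨by simpa using h1, h2.2, ?_, h4.2⟩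
          rw [← h3, Finset.erase_insert]
          rw [List.mem_toFinset]; exact h2.1

/-- The sum over the entries in `S` of the list of their positions (counted from `1`). -/
def G (S : α → Bool) : List α → ℕ
  | [] => 0
  | m :: l => (m :: l).countP S + G S l

omit [DecidableEq α] [PartialOrder α] [DecidableLT α] in
lemma G_ofFn (S : α → Bool) (n : ℕ) (h : Fin n → α) :
    G S (List.ofFn h) = ∑ k : Fin n, if S (h k) then (k : ℕ) + 1 else 0 := by
  induction n with
  | zero => simp [G]
  | succ n ih =>
    have hc : ∀ (m : ℕ) (g : Fin m → α), (List.ofFn g).countP S = ∑ k : Fin m, if S (g k) then 1 else 0 := by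
      intro m
      induction m with
      | zero => intro g; simp
      | succ m ihm =>
        intro g
        rw [List.ofFn_succ, List.countP_cons, ihm, Fin.sum_univ_succ]
        ring
    rw [List.ofFn_succ, G, ih, ← List.ofFn_succ, hc, Fin.sum_univ_succ, Fin.sum_univ_succ,
      add_assoc, ← Finset.sum_add_distrib]
    congr 1
    refine Finset.sum_congr rfl (fun k _ => ?_)
    split_ifs
    · simp only [Fin.val_succ]; ring
    · rfl

lemma sum_ords_succ (F : List α → ℕ) (n : ℕ) (R : Finset α) :
    ∑ l ∈ ords (n + 1) R, F l = ∑ m ∈ mins R, ∑ l ∈ ords n (R.erase m), F (m :: l) := by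
  conv_lhs => unfold ords
  rw [Finset.sum_biUnion]
  · refine Finset.sum_congr rfl (fun m _ => ?_)
    rw [Finset.sum_image]
    intro a _ b _ hab
    exact (List.cons.inj hab).2
  · intro m _ m' _ hmm
    simp only [Function.onFun]
    rw [Finset.disjoint_left]
    intro l hl hl'
    rw [Finset.mem_image] at hl hl'
    obtain ⟨a, -, rfl⟩ := hl
    obtain ⟨b, -, hb⟩ := hl'
    exact hmm (List.cons.inj hb).1.symm

/-- Number of orderings of `R`. -/
def cnt (R : Finset α) : ℕ := (ords R.card R).card

/-- Sum over the orderings of `R` of the positions of the elements of `S`. -/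
def wgt (S : α → Bool) (R : Finset α) : ℕ := ∑ l ∈ ords R.card R, G S l

lemma cnt_empty : cnt (∅ : Finset α) = 1 := by
  simp [cnt, ords]

lemma wgt_empty (S : α → Bool) : wgt S (∅ : Finset α) = 0 := by
  simp [wgt, ords, G]

omit [DecidableEq α] in
lemma mins_subset (R : Finset α) : mins R ⊆ R := Finset.filter_subset _ _

lemma cnt_rec {R : Finset α} (hR : R.Nonempty) :
    cnt R = ∑ m ∈ mins R, cnt (R.erase m) := by
  obtain ⟨n, hn⟩ : ∃ n, R.card = n + 1 := ⟨R.card - 1, by have := hR.card_pos; omega⟩
  unfold cnt
  rw [hn, Finset.card_eq_sum_ones, sum_ords_succ]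
  refine Finset.sum_congr rfl (fun m hm => ?_)
  rw [Finset.card_erase_of_mem (mins_subset R hm), hn, Nat.add_sub_cancel,
    Finset.card_eq_sum_ones]

lemma countP_of_mem {S : α → Bool} {n : ℕ} {R : Finset α} {l : List α} (h : l ∈ ords n R) :
    l.countP S = (R.filter (fun a => S a)).card := by
  rw [mem_ords] at h
  obtain ⟨-, h2, h3, -⟩ := h
  rw [List.countP_eq_length_filter, ← List.toFinset_card_of_nodup (h2.filter _),
    List.toFinset_filter, h3]

lemma wgt_rec (S : α → Bool) {R : Finset α} (hR : R.Nonempty) :
    wgt S R = (R.filter (fun a => S a)).card * cnt R + ∑ m ∈ mins R, wgt S (R.erase m) := by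
  obtain ⟨n, hn⟩ : ∃ n, R.card = n + 1 := ⟨R.card - 1, by have := hR.card_pos; omega⟩
  have h1 : wgt S R = ∑ l ∈ ords (n + 1) R, (l.countP S + G S l.tail) := by
    unfold wgt
    rw [hn]
    refine Finset.sum_congr rfl (fun l hl => ?_)
    rw [mem_ords] at hl
    cases l with
    | nil => simp at hl
    | cons a l => rfl
  rw [h1, Finset.sum_add_distrib]
  congr 1
  · rw [Finset.sum_congr rfl (fun l hl => countP_of_mem hl), Finset.sum_const, smul_eq_mul,
      mul_comm, cnt, hn]
  · rw [sum_ords_succ]
    refine Finset.sum_congr rfl (fun m hm => ?_)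
    unfold wgt
    rw [Finset.card_erase_of_mem (mins_subset R hm), hn, Nat.add_sub_cancel]
    rfl

end Lists

/-! ### From bijections to lists -/

section Bridge

variable {α : Type*} [DecidableEq α] [PartialOrder α] [DecidableLT α]
variable {Q : Type*} [Fintype Q] [PartialOrder Q]

lemma sum_linExts (ι : Q ↪o α) (F : List α → ℕ) :
    ∑ f ∈ linExts Q, F (List.ofFn (fun k => ι (f.symm k))) =
      ∑ l ∈ ords (Fintype.card Q) (Finset.univ.map ι.toEmbedding), F l := by
  classical
  refine Finset.sum_bij (fun f _ => List.ofFn (fun k => ι (f.symm k))) ?_ ?_ ?_ ?_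
  · intro f hf
    rw [linExts, Finset.mem_filter] at hf
    rw [mem_ords]
    refine ⟨List.length_ofFn, ?_, ?_, ?_⟩
    · rw [List.nodup_ofFn]
      exact ι.injective.comp f.symm.injective
    · ext y
      simp only [List.mem_toFinset, List.mem_ofFn, Finset.mem_map, Finset.mem_univ, true_and]
      constructor
      · rintro ⟨k, hk⟩; exact ⟨f.symm k, hk⟩
      · rintro ⟨q, hq⟩; exact ⟨f q, by simpa using hq⟩
    · rw [List.pairwise_ofFn]
      intro i j hij hlt
      have := hf.2 (ι.lt_iff_lt.1 hlt)
      simp only [Equiv.apply_symm_apply] at this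
      exact absurd hij (not_lt.2 this.le)
  · intro f _ g _ hfg
    have h1 := List.ofFn_injective hfg
    have h2 : f.symm = g.symm := by
      ext k
      exact ι.injective (congrFun h1 k)
    have := congrArg Equiv.symm h2
    simpa using this
  · intro l hl
    rw [mem_ords] at hl
    obtain ⟨h1, h2, h3, h4⟩ := hl
    have hmem : ∀ k : Fin (Fintype.card Q), ∃ q, ι q = l.get (k.cast h1.symm) := by
      intro k
      have : l.get (k.cast h1.symm) ∈ l.toFinset := List.mem_toFinset.2 (List.get_mem _ _)
      rw [h3] at this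
      simpa using this
    choose g hg using hmem
    have hginj : Function.Injective g := by
      intro a b hab
      have h5 : l.get (a.cast h1.symm) = l.get (b.cast h1.symm) := by rw [← hg, ← hg, hab]
      have h6 := (List.nodup_iff_injective_get.1 h2) h5
      simpa [Fin.ext_iff] using h6
    have hgbij : Function.Bijective g := by
      rw [Fintype.bijective_iff_injective_and_card]
      exact ⟨hginj, by simp⟩
    have hl : List.ofFn (fun k => ι (g k)) = l := by
      apply List.ext_get
      · simp [h1]
      · intro n h5 h6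
        simp only [List.get_eq_getElem, List.getElem_ofFn, hg]
        rfl
    refine ⟨(Equiv.ofBijective g hgbij).symm, ?_, ?_⟩
    · rw [linExts, Finset.mem_filter]
      refine ⟨Finset.mem_univ _, ?_⟩
      intro p q hpq
      set f := (Equiv.ofBijective g hgbij).symm with hf
      have hgf : ∀ q, g (f q) = q := fun q => (Equiv.ofBijective g hgbij).apply_symm_apply q
      rcases lt_trichotomy (f p) (f q) with h | h | h
      · exact h
      · exact absurd (f.injective h) hpq.ne
      · exfalso
        rw [← hl, List.pairwise_ofFn] at h4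
        refine h4 h ?_
        rw [hgf, hgf]
        exact ι.lt_iff_lt.2 hpq
    · simpa using hl
  · intro f _
    rfl

lemma card_linExts (ι : Q ↪o α) :
    (linExts Q).card = cnt (Finset.univ.map ι.toEmbedding) := by
  have h := sum_linExts ι (fun _ => 1)
  rw [Finset.sum_const, Finset.sum_const, smul_eq_mul, smul_eq_mul, mul_one, mul_one] at h
  rw [h, cnt, Finset.card_map, Finset.card_univ]

lemma sum_height (ι : Q ↪o α) (S : α → Bool) :
    ∑ f ∈ linExts Q, ∑ q : Q, (if S (ι q) then (f q : ℕ) + 1 else 0) =
      wgt S (Finset.univ.map ι.toEmbedding) := by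
  have h := sum_linExts ι (G S)
  rw [wgt, Finset.card_map, Finset.card_univ, ← h]
  refine Finset.sum_congr rfl (fun f _ => ?_)
  rw [G_ofFn, ← f.symm.sum_comp]
  simp

lemma sum_avgHeight (ι : Q ↪o α) (S : α → Bool) :
    ∑ q : Q, (if S (ι q) then avgHeight Q q else 0) =
      (wgt S (Finset.univ.map ι.toEmbedding) : ℚ) / (cnt (Finset.univ.map ι.toEmbedding) : ℚ) := by
  rw [← sum_height ι S, ← card_linExts ι]
  unfold avgHeight
  push_cast
  rw [Finset.sum_comm, Finset.sum_div]
  refine Finset.sum_congr rfl (fun q _ => ?_)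
  split_ifs
  · simp
  · simp

open Classical in
lemma le_deletionSum (ι : Q ↪o α) (x : Q) (S : α → Bool) (hS : S (ι x) = false) :
    (wgt S (Finset.univ.map ι.toEmbedding) : ℚ) / (cnt (Finset.univ.map ι.toEmbedding) : ℚ) -
      (wgt S ((Finset.univ.map ι.toEmbedding).erase (ι x)) : ℚ) /
        (cnt ((Finset.univ.map ι.toEmbedding).erase (ι x)) : ℚ) ≤ deletionSum Q x := by
  set ι' : {y : Q // y ≠ x} ↪o α :=
    (OrderEmbedding.subtype (fun y : Q => y ≠ x)).trans ι with hι'
  have e2 : (Finset.univ : Finset {y : Q // y ≠ x}).map ι'.toEmbedding =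
      (Finset.univ.map ι.toEmbedding).erase (ι x) := by
    ext e
    simp only [Finset.mem_map, Finset.mem_univ, true_and, Finset.mem_erase]
    constructor
    · rintro ⟨⟨y, hne⟩, rfl⟩
      exact ⟨fun h => hne (ι.injective h), y, rfl⟩
    · rintro ⟨hne, y, rfl⟩
      exact ⟨⟨y, fun h => hne (congrArg ι h)⟩, rfl⟩
  have hP := sum_avgHeight ι S
  have hQ := sum_avgHeight ι' S
  rw [e2] at hQ
  rw [← hP, ← hQ]
  have hsplit : ∑ q : Q, (if S (ι q) then avgHeight Q q else 0) =
      ∑ q : {y : Q // y ≠ x}, (if S (ι q.1) then avgHeight Q q.1 else 0) := by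
    rw [← Finset.sum_subtype (Finset.univ.filter (fun q : Q => q ≠ x)) (by simp)
      (fun q => if S (ι q) then avgHeight Q q else 0), Finset.sum_filter]
    refine Finset.sum_congr rfl (fun q _ => ?_)
    by_cases h : q = x
    · subst h; simp [hS]
    · simp [h]
  rw [hsplit, ← Finset.sum_sub_distrib]
  unfold deletionSum
  refine Finset.sum_le_sum (fun q _ => ?_)
  change (if S (ι q.1) = true then avgHeight Q q.1 else 0) -
    (if S (ι q.1) = true then _ else 0) ≤ _
  split_ifs
  · exact le_max_left _ _
  · simp

end Bridge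

/-! ### The poset -/

/-- The elements of the poset: two chains `a i`, `b j` and one more element `x`. -/
inductive El
  | a (i : ℕ)
  | x
  | b (j : ℕ)
  deriving DecidableEq

namespace El

/-- The order: the `a i` and the `b j` are chains, and `a i < x` iff `i ≤ 7`, `x < b j` iff
`25 ≤ j`, `a i < b j` iff `i ≤ 7` and `25 ≤ j`. -/
def le : El → El → Prop
  | a i, a j => i ≤ j
  | a i, x => i ≤ 7
  | a i, b j => i ≤ 7 ∧ 25 ≤ j
  | x, a _ => False
  | x, x => True
  | x, b j => 25 ≤ j
  | b _, a _ => False
  | b _, x => False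
  | b i, b j => i ≤ j

instance : DecidableRel le := fun p q => by
  cases p <;> cases q <;> unfold le <;> infer_instance

instance : PartialOrder El where
  le := le
  le_refl p := by cases p <;> simp [le]
  le_trans p q r h1 h2 := by
    cases p <;> cases q <;> cases r <;> simp only [le] at h1 h2 ⊢ <;> omega
  le_antisymm p q h1 h2 := by
    cases p <;> cases q <;> simp only [le, a.injEq, b.injEq] at h1 h2 ⊢ <;> omega

instance : DecidableLE El := inferInstanceAs (DecidableRel le)

instance : DecidableLT El := fun p q => decidable_of_iff (p ≤ q ∧ ¬ q ≤ p) lt_iff_le_not_ge.symm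

lemma le_def (p q : El) : p ≤ q ↔ le p q := Iff.rfl

@[simp] lemma a_lt_a (i j : ℕ) : a i < a j ↔ i < j := by
  rw [lt_iff_le_not_ge, le_def, le_def]; simp only [le]; omega
@[simp] lemma a_lt_x (i : ℕ) : a i < x ↔ i ≤ 7 := by
  rw [lt_iff_le_not_ge, le_def, le_def]; simp only [le]; tauto
@[simp] lemma a_lt_b (i j : ℕ) : a i < b j ↔ i ≤ 7 ∧ 25 ≤ j := by
  rw [lt_iff_le_not_ge, le_def, le_def]; simp only [le]; tauto
@[simp] lemma x_lt_a (i : ℕ) : ¬ x < a i := by
  rw [lt_iff_le_not_ge, le_def, le_def]; simp only [le]; tauto
@[simp] lemma x_lt_b (j : ℕ) : x < b j ↔ 25 ≤ j := by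
  rw [lt_iff_le_not_ge, le_def, le_def]; simp only [le]; tauto
@[simp] lemma b_lt_a (i j : ℕ) : ¬ b j < a i := by
  rw [lt_iff_le_not_ge, le_def, le_def]; simp only [le]; tauto
@[simp] lemma b_lt_x (j : ℕ) : ¬ b j < x := by
  rw [lt_iff_le_not_ge, le_def, le_def]; simp only [le]; tauto
@[simp] lemma b_lt_b (i j : ℕ) : b i < b j ↔ i < j := by
  rw [lt_iff_le_not_ge, le_def, le_def]; simp only [le]; omega

/-- Is the element one of the `b j`? -/
def isB : El → Bool
  | b _ => true
  | _ => false

end El

open El

/-- The set `{a i : s ≤ i < 30} ∪ {b j : t ≤ j < 80}`, together with `x` if `z` is true. -/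
def R (s t : ℕ) (z : Bool) : Finset El :=
  (Finset.Ico s 30).image a ∪ (Finset.Ico t 80).image b ∪ (if z then {x} else ∅)

@[simp] lemma a_mem_R {i s t : ℕ} {z : Bool} : a i ∈ R s t z ↔ s ≤ i ∧ i < 30 := by
  cases z <;> simp [R]
@[simp] lemma b_mem_R {j s t : ℕ} {z : Bool} : b j ∈ R s t z ↔ t ≤ j ∧ j < 80 := by
  cases z <;> simp [R]
@[simp] lemma x_mem_R {s t : ℕ} {z : Bool} : x ∈ R s t z ↔ z = true := by
  cases z <;> simp [R]

lemma erase_a (s t : ℕ) (z : Bool) : (R s t z).erase (a s) = R (s + 1) t z := by
  ext e
  cases e with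
  | a i => simp only [Finset.mem_erase, a_mem_R, ne_eq, a.injEq]; omega
  | x => simp only [Finset.mem_erase, x_mem_R, ne_eq, reduceCtorEq, not_false_eq_true, true_and]
  | b j => simp only [Finset.mem_erase, b_mem_R, ne_eq, reduceCtorEq, not_false_eq_true, true_and]

lemma erase_b (s t : ℕ) (z : Bool) : (R s t z).erase (b t) = R s (t + 1) z := by
  ext e
  cases e with
  | a i => simp only [Finset.mem_erase, a_mem_R, ne_eq, reduceCtorEq, not_false_eq_true, true_and]
  | x => simp only [Finset.mem_erase, x_mem_R, ne_eq, reduceCtorEq, not_false_eq_true, true_and]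
  | b j => simp only [Finset.mem_erase, b_mem_R, ne_eq, b.injEq]; omega

lemma erase_x (s t : ℕ) : (R s t true).erase x = R s t false := by
  ext e
  cases e <;> simp [Finset.mem_erase]

lemma card_filter_R (s t : ℕ) (z : Bool) : ((R s t z).filter (fun e => isB e)).card = 80 - t := by
  have : (R s t z).filter (fun e => isB e) = (Finset.Ico t 80).image b := by
    ext e
    rw [Finset.mem_filter]
    cases e <;> simp [isB]
  rw [this, Finset.card_image_of_injective _ (fun i j h => by simpa using h), Nat.card_Ico]

lemma mins_R_false (s t : ℕ) : mins (R s t false) =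
    (if s < 30 then {a s} else ∅) ∪ (if t < 80 ∧ (t < 25 ∨ 8 ≤ s) then {b t} else ∅) := by
  ext e
  rw [mins, Finset.mem_filter, Finset.mem_union]
  constructor
  · rintro ⟨he, hmin⟩
    cases e with
    | a i =>
      left
      rw [a_mem_R] at he
      have h1 := hmin (a s)
      simp only [a_mem_R, a_lt_a] at h1
      have h2 : i = s := by omega
      subst h2
      simp [he.2]
    | x => simp at he
    | b j =>
      right
      rw [b_mem_R] at he
      have h1 := hmin (b t)
      simp only [b_mem_R, b_lt_b] at h1
      have h2 : j = t := by omega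
      subst h2
      have h3 := hmin (a s)
      simp only [a_mem_R, a_lt_b] at h3
      rw [if_pos]
      · simp
      · omega
  · rintro (h | h)
    · split_ifs at h with hs
      · rw [Finset.mem_singleton] at h
        subst h
        refine ⟨by simp [hs], fun y hy => ?_⟩
        cases y with
        | a i => simp only [a_mem_R] at hy; simp only [a_lt_a]; omega
        | x => simp
        | b j => simp
      · simp at h
    · split_ifs at h with hs
      · rw [Finset.mem_singleton] at h
        subst h
        refine ⟨by simp [hs.1], fun y hy => ?_⟩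
        cases y with
        | a i => simp only [a_mem_R] at hy; simp only [a_lt_b]; omega
        | x => simp at hy
        | b j => simp only [b_mem_R] at hy; simp only [b_lt_b]; omega
      · simp at h

lemma mins_R_true (s t : ℕ) : mins (R s t true) =
    (if s < 30 then {a s} else ∅) ∪ ((if 8 ≤ s then {x} else ∅) ∪
      (if t < 80 ∧ t < 25 then {b t} else ∅)) := by
  ext e
  rw [mins, Finset.mem_filter, Finset.mem_union, Finset.mem_union]
  constructor
  · rintro ⟨he, hmin⟩
    cases e with
    | a i =>
      left
      rw [a_mem_R] at he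
      have h1 := hmin (a s)
      simp only [a_mem_R, a_lt_a] at h1
      have h2 : i = s := by omega
      subst h2
      simp [he.2]
    | x =>
      right; left
      have h3 := hmin (a s)
      simp only [a_mem_R, a_lt_x] at h3
      rw [if_pos (by omega)]
      simp
    | b j =>
      right; right
      rw [b_mem_R] at he
      have h1 := hmin (b t)
      simp only [b_mem_R, b_lt_b] at h1
      have h2 : j = t := by omega
      subst h2
      have h3 := hmin x (by simp)
      simp only [x_lt_b] at h3
      rw [if_pos]
      · simp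
      · omega
  · rintro (h | h | h)
    · split_ifs at h with hs
      · rw [Finset.mem_singleton] at h
        subst h
        refine ⟨by simp [hs], fun y hy => ?_⟩
        cases y with
        | a i => simp only [a_mem_R] at hy; simp only [a_lt_a]; omega
        | x => simp
        | b j => simp
      · simp at h
    · split_ifs at h with hs
      · rw [Finset.mem_singleton] at h
        subst h
        refine ⟨by simp, fun y hy => ?_⟩
        cases y with
        | a i => simp only [a_mem_R] at hy; simp only [a_lt_x]; omega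
        | x => simp
        | b j => simp
      · simp at h
    · split_ifs at h with hs
      · rw [Finset.mem_singleton] at h
        subst h
        refine ⟨by simp [hs.1], fun y hy => ?_⟩
        cases y with
        | a i => simp only [a_mem_R] at hy; simp only [a_lt_b]; omega
        | x => simp only [x_lt_b]; omega
        | b j => simp only [b_mem_R] at hy; simp only [b_lt_b]; omega
      · simp at h

lemma sum_mins_false (F : Finset El → ℕ) (s t : ℕ) :
    ∑ m ∈ mins (R s t false), F ((R s t false).erase m) =
      (if s < 30 then F (R (s + 1) t false) else 0) +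
      (if t < 80 ∧ (t < 25 ∨ 8 ≤ s) then F (R s (t + 1) false) else 0) := by
  rw [mins_R_false, Finset.sum_union]
  · congr 1
    · split_ifs
      · rw [Finset.sum_singleton, erase_a]
      · simp
    · split_ifs
      · rw [Finset.sum_singleton, erase_b]
      · simp
  · split_ifs <;> simp

lemma sum_mins_true (F : Finset El → ℕ) (s t : ℕ) :
    ∑ m ∈ mins (R s t true), F ((R s t true).erase m) =
      (if s < 30 then F (R (s + 1) t true) else 0) + ((if 8 ≤ s then F (R s t false) else 0) +
      (if t < 80 ∧ t < 25 then F (R s (t + 1) true) else 0)) := by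
  rw [mins_R_true, Finset.sum_union, Finset.sum_union]
  · congr 1
    · split_ifs
      · rw [Finset.sum_singleton, erase_a]
      · simp
    congr 1
    · split_ifs
      · rw [Finset.sum_singleton, erase_x]
      · simp
    · split_ifs
      · rw [Finset.sum_singleton, erase_b]
      · simp
  · split_ifs <;> simp
  · split_ifs <;> simp

/-! ### The recursion -/

/-- Values `(cnt (R s t false), wgt (R s t false), cnt (R s t true), wgt (R s t true))`. -/
abbrev V := ℕ × ℕ × ℕ × ℕ

/-- One step of the recursion; `k = 80 - t`, `A` says `8 ≤ s` and `B` says `t < 25`. -/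
def comb (A B : Bool) (k : ℕ) (o l : V) : V :=
  let n0 := o.1 + (if B || A then l.1 else 0)
  let w0 := o.2.1 + (if B || A then l.2.1 else 0) + k * n0
  let n1 := o.2.2.1 + (if A then n0 else 0) + (if B then l.2.2.1 else 0)
  let w1 := o.2.2.2 + (if A then w0 else 0) + (if B then l.2.2.2 else 0) + k * n1
  (n0, w0, n1, w1)

/-- The true values. -/
noncomputable def val (s t : ℕ) : V :=
  (cnt (R s t false), wgt isB (R s t false), cnt (R s t true), wgt isB (R s t true))

/-- Starting row. -/
def seed : ℕ → V
  | 0 => (1, 0, 0, 0)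
  | _ + 1 => (0, 0, 0, 0)

lemma R_false_nonempty {s t : ℕ} (h : s < 30 ∨ t < 80) : (R s t false).Nonempty := by
  rcases h with h | h
  · exact ⟨a s, by simp [h]⟩
  · exact ⟨b t, by simp [h]⟩

lemma R_empty : R 30 80 false = ∅ := by
  ext e; cases e <;> simp

/-- The recursion for the true values. -/
lemma val_rec (s k : ℕ) (hs : s ≤ 30) (hk : k ≤ 80) :
    val s (80 - k) = comb (decide (8 ≤ s)) (decide (55 < k)) k
      (if s < 30 then val (s + 1) (80 - k) else seed k)
      (if k = 0 then (0, 0, 0, 0) else val s (80 - (k - 1))) := by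
  set t := 80 - k with ht
  have hkt : 80 - t = k := by omega
  have e1 : (55 < k) ↔ (t < 25) := by omega
  have h25 : (t < 80 ∧ t < 25) ↔ t < 25 := by omega
  -- the count and weight of `R s t false`
  have hc0 : cnt (R s t false) = (if s < 30 then cnt (R (s + 1) t false) else (seed k).1) +
      (if t < 80 ∧ (t < 25 ∨ 8 ≤ s) then cnt (R s (t + 1) false) else 0) := by
    by_cases h : s < 30 ∨ t < 80
    · rw [cnt_rec (R_false_nonempty h), sum_mins_false]
      rcases h with h | h
      · simp [h]
      · by_cases h' : s < 30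
        · simp [h']
        · have : k ≠ 0 := by omega
          obtain ⟨k', rfl⟩ := Nat.exists_eq_succ_of_ne_zero this
          simp [h', seed]
    · have h1 : s = 30 := by omega
      have h2 : t = 80 := by omega
      have h3 : k = 0 := by omega
      rw [h1, h2, R_empty, cnt_empty, h3]
      simp [seed]
  have hw0 : wgt isB (R s t false) =
      (if s < 30 then wgt isB (R (s + 1) t false) else (seed k).2.1) +
      (if t < 80 ∧ (t < 25 ∨ 8 ≤ s) then wgt isB (R s (t + 1) false) else 0) +
      k * cnt (R s t false) := by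
    by_cases h : s < 30 ∨ t < 80
    · rw [wgt_rec isB (R_false_nonempty h), sum_mins_false, card_filter_R, hkt, add_comm]
      rcases h with h | h
      · simp [h]
      · by_cases h' : s < 30
        · simp [h']
        · have : k ≠ 0 := by omega
          obtain ⟨k', rfl⟩ := Nat.exists_eq_succ_of_ne_zero this
          simp [h', seed]
    · have h1 : s = 30 := by omega
      have h2 : t = 80 := by omega
      have h3 : k = 0 := by omega
      rw [h1, h2, R_empty, wgt_empty, h3]
      simp [seed]
  have hne : (R s t true).Nonempty := ⟨x, by simp⟩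
  have hseed : (seed k).2.2 = (0, 0) := by cases k <;> rfl
  have hc1 : cnt (R s t true) = (if s < 30 then cnt (R (s + 1) t true) else 0) +
      ((if 8 ≤ s then cnt (R s t false) else 0) +
      (if t < 80 ∧ t < 25 then cnt (R s (t + 1) true) else 0)) := by
    rw [cnt_rec hne, sum_mins_true]
  have hw1 : wgt isB (R s t true) = (if s < 30 then wgt isB (R (s + 1) t true) else 0) +
      ((if 8 ≤ s then wgt isB (R s t false) else 0) +
      (if t < 80 ∧ t < 25 then wgt isB (R s (t + 1) true) else 0)) +
      k * cnt (R s t true) := by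
    rw [wgt_rec isB hne, sum_mins_true, card_filter_R, hkt, add_comm]
  have hlast : (if k = 0 then ((0, 0, 0, 0) : V) else val s (80 - (k - 1))) =
      if t < 80 then val s (t + 1) else (0, 0, 0, 0) := by
    by_cases hk0 : k = 0
    · rw [if_pos hk0, if_neg (by omega)]
    · rw [if_neg hk0, if_pos (by omega), show 80 - (k - 1) = t + 1 by omega]
  rw [hlast]
  unfold val comb
  simp only [Prod.mk.injEq]
  have hA : decide (8 ≤ s) = true ↔ 8 ≤ s := decide_eq_true_iff
  have hB : decide (55 < k) = true ↔ t < 25 := by rw [decide_eq_true_iff]; exact e1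
  have hBA : (decide (55 < k) || decide (8 ≤ s)) = true ↔ (t < 25 ∨ 8 ≤ s) := by
    rw [Bool.or_eq_true, hA, hB]
  simp only [hA, hB, hBA]
  have g0 : cnt (R s t false) = (if s < 30 then cnt (R (s + 1) t false) else (seed k).1) +
      (if t < 25 ∨ 8 ≤ s then (if t < 80 then cnt (R s (t + 1) false) else 0) else 0) := by
    rw [hc0]; congr 1; split_ifs <;> first | rfl | omega
  have g1 : wgt isB (R s t false) =
      (if s < 30 then wgt isB (R (s + 1) t false) else (seed k).2.1) +
      (if t < 25 ∨ 8 ≤ s then (if t < 80 then wgt isB (R s (t + 1) false) else 0) else 0) +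
      k * cnt (R s t false) := by
    rw [hw0]; congr 2; split_ifs <;> first | rfl | omega
  have g2 : cnt (R s t true) = (if s < 30 then cnt (R (s + 1) t true) else 0) +
      (if 8 ≤ s then cnt (R s t false) else 0) +
      (if t < 25 then (if t < 80 then cnt (R s (t + 1) true) else 0) else 0) := by
    rw [hc1, ← add_assoc]; congr 1; split_ifs <;> first | rfl | omega
  have g3 : wgt isB (R s t true) = (if s < 30 then wgt isB (R (s + 1) t true) else 0) +
      (if 8 ≤ s then wgt isB (R s t false) else 0) +
      (if t < 25 then (if t < 80 then wgt isB (R s (t + 1) true) else 0) else 0) +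
      k * cnt (R s t true) := by
    rw [hw1, ← add_assoc]
    congr 2; split_ifs <;> first | rfl | omega
  have p1 : ∀ (c : Prop) [Decidable c] (v w : V), (if c then v else w).1 = if c then v.1 else w.1 :=
    fun c _ v w => apply_ite Prod.fst c v w
  have p2 : ∀ (c : Prop) [Decidable c] (v w : V),
      (if c then v else w).2.1 = if c then v.2.1 else w.2.1 :=
    fun c _ v w => apply_ite (fun v : V => v.2.1) c v w
  have p3 : ∀ (c : Prop) [Decidable c] (v w : V),
      (if c then v else w).2.2.1 = if c then v.2.2.1 else w.2.2.1 :=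
    fun c _ v w => apply_ite (fun v : V => v.2.2.1) c v w
  have p4 : ∀ (c : Prop) [Decidable c] (v w : V),
      (if c then v else w).2.2.2 = if c then v.2.2.2 else w.2.2.2 :=
    fun c _ v w => apply_ite (fun v : V => v.2.2.2) c v w
  simp only [p1, p2, p3, p4, hseed]
  rw [← g0, ← g1, ← g2, ← g3]
  exact ⟨rfl, rfl, rfl, rfl⟩

/-- A row of values computed from the next one. -/
def vRow (A : Bool) (prev : ℕ → V) : ℕ → V
  | 0 => comb A (decide (55 < 0)) 0 (prev 0) (0, 0, 0, 0)
  | k + 1 => comb A (decide (55 < k + 1)) (k + 1) (prev (k + 1)) (vRow A prev k)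

lemma vRow_eq {s : ℕ} (hs : s ≤ 30) (prev : ℕ → V)
    (hprev : ∀ k ≤ 80, prev k = if s < 30 then val (s + 1) (80 - k) else seed k) :
    ∀ k ≤ 80, vRow (decide (8 ≤ s)) prev k = val s (80 - k) := by
  intro k
  induction k with
  | zero =>
    intro hk
    rw [val_rec s 0 hs hk, vRow, hprev 0 hk, if_pos rfl]
  | succ k ih =>
    intro hk
    rw [val_rec s (k + 1) hs hk, vRow, hprev (k + 1) hk, if_neg (Nat.succ_ne_zero k),
      Nat.add_sub_cancel, ih (by omega)]

/-- The value at `s = 30 - u`, `t = 80 - k`. -/
def vt : ℕ → ℕ → V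
  | 0 => vRow (decide (8 ≤ 30)) seed
  | u + 1 => vRow (decide (8 ≤ 30 - (u + 1))) (vt u)

lemma vt_eq (u : ℕ) (hu : u ≤ 30) : ∀ k ≤ 80, vt u k = val (30 - u) (80 - k) := by
  induction u with
  | zero => exact vRow_eq le_rfl seed (fun k _ => by rw [if_neg (lt_irrefl _)])
  | succ u ih =>
    refine vRow_eq (s := 30 - (u + 1)) (by omega) (vt u) (fun k hk => ?_)
    rw [if_pos (by omega), ih (by omega) k hk]
    congr 1
    omega

/-- A row of values as a list. -/
def rowL (A : Bool) : ℕ → V → List V → List V
  | _, _, [] => []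
  | k, l, o :: os =>
    comb A (decide (55 < k)) k o l :: rowL A (k + 1) (comb A (decide (55 < k)) k o l) os

lemma rowL_eq (A : Bool) (prev : ℕ → V) (m : ℕ) : ∀ (k : ℕ) (l : V),
    (l = if k = 0 then (0, 0, 0, 0) else vRow A prev (k - 1)) →
    rowL A k l ((List.range' k m).map prev) = (List.range' k m).map (vRow A prev) := by
  induction m with
  | zero => intro k l _; rfl
  | succ m ih =>
    intro k l hl
    have hstep : comb A (decide (55 < k)) k (prev k) l = vRow A prev k := by
      cases k with
      | zero => rw [hl, if_pos rfl]; rfl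
      | succ k => rw [hl, if_neg (Nat.succ_ne_zero k)]; rfl
    rw [List.range'_succ, List.map_cons, List.map_cons, rowL, hstep]
    rw [ih (k + 1) _ (by rw [if_neg (Nat.succ_ne_zero k), Nat.add_sub_cancel])]

/-- The rows, as lists. -/
def tbl : ℕ → List V
  | 0 => rowL (decide (8 ≤ 30)) 0 (0, 0, 0, 0) ((List.range' 0 81).map seed)
  | u + 1 => rowL (decide (8 ≤ 30 - (u + 1))) 0 (0, 0, 0, 0) (tbl u)

lemma tbl_eq (u : ℕ) : tbl u = (List.range' 0 81).map (vt u) := by
  induction u with
  | zero => exact rowL_eq _ seed 81 0 _ rfl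
  | succ u ih => rw [tbl, ih]; exact rowL_eq _ (vt u) 81 0 _ rfl

/-- The numerical test. -/
def test (v : V) : Bool :=
  decide (v.2.1 * v.2.2.1 + 110 * v.1 * v.2.2.1 < v.2.2.2 * v.1) && decide (0 < v.1) &&
    decide (0 < v.2.2.1)

lemma test_tbl : test ((tbl 30).getD 80 (0, 0, 0, 0)) = true := by decide +kernel

lemma getD_tbl : (tbl 30).getD 80 (0, 0, 0, 0) = val 0 0 := by
  have h1 : (tbl 30)[80]? = some (vt 30 80) := by
    rw [tbl_eq, List.getElem?_map, List.getElem?_range' (by norm_num)]
    rfl
  rw [List.getD_eq_getElem?_getD, h1, Option.getD_some, vt_eq 30 le_rfl 80 le_rfl]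

lemma test_val : test (val 0 0) = true := by
  rw [← getD_tbl]
  exact test_tbl

lemma ineq_of_test (n0 w0 n1 w1 : ℕ) (h : test (n0, w0, n1, w1) = true) :
    (110 : ℚ) < (w1 : ℚ) / (n1 : ℚ) - (w0 : ℚ) / (n0 : ℚ) := by
  unfold test at h
  simp only [Bool.and_eq_true, decide_eq_true_iff] at h
  obtain ⟨⟨h1, h2⟩, h3⟩ := h
  have h1' : (w0 : ℚ) * n1 + 110 * n0 * n1 < w1 * n0 := by exact_mod_cast h1
  have h2' : (0 : ℚ) < n0 := by exact_mod_cast h2
  have h3' : (0 : ℚ) < n1 := by exact_mod_cast h3
  rw [div_sub_div _ _ h3'.ne' h2'.ne', lt_div_iff₀ (mul_pos h3' h2')]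
  linarith

lemma final_ineq : (110 : ℚ) <
    (wgt isB (R 0 0 true) : ℚ) / (cnt (R 0 0 true) : ℚ) -
      (wgt isB (R 0 0 false) : ℚ) / (cnt (R 0 0 false) : ℚ) :=
  ineq_of_test _ _ _ _ test_val

/-- The poset of the counterexample. -/
abbrev Pos : Type := {e : El // e ∈ R 0 0 true}

/-- The element that is deleted. -/
def x0 : Pos := ⟨x, by simp⟩

lemma card_Pos : Fintype.card Pos = 111 := by
  rw [Fintype.card_coe]
  have h : R 0 0 true = ((Finset.Ico 0 30).image a ∪ (Finset.Ico 0 80).image b) ∪ {x} := rfl
  rw [h, Finset.card_union_of_disjoint, Finset.card_union_of_disjoint,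
    Finset.card_image_of_injective _ (fun i j h => by simpa using h),
    Finset.card_image_of_injective _ (fun i j h => by simpa using h)]
  · simp
  · rw [Finset.disjoint_left]; intro e h1 h2
    rw [Finset.mem_image] at h1 h2
    obtain ⟨i, -, rfl⟩ := h1
    obtain ⟨j, -, h⟩ := h2
    cases h
  · simp

lemma deletionSum_Pos : (110 : ℚ) < deletionSum Pos x0 := by
  have e1 : (Finset.univ : Finset Pos).map
      (OrderEmbedding.subtype (fun e : El => e ∈ R 0 0 true)).toEmbedding = R 0 0 true := by
    ext e
    simp
  have h := le_deletionSum (OrderEmbedding.subtype (fun e : El => e ∈ R 0 0 true)) x0 isB rfl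
  rw [e1] at h
  change _ - (wgt isB ((R 0 0 true).erase x) : ℚ) / (cnt ((R 0 0 true).erase x) : ℚ) ≤ _ at h
  rw [erase_x] at h
  exact lt_of_lt_of_le final_ineq h

/-- **Disproof.** There is a poset with `111` elements and an element `x` of it for which
`∑_{y ≠ x} max (h_P(y) - h_{P-x}(y)) 0` is larger than `|P| - 1`. -/
theorem result : ∃ (P : Type) (_ : Fintype P) (_ : PartialOrder P) (x : P),
    Fintype.card P = 111 ∧ (Fintype.card P : ℚ) - 1 < deletionSum P x := by
  refine ⟨Pos, inferInstance, inferInstance, x0, card_Pos, ?_⟩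
  rw [card_Pos]
  have := deletionSum_Pos
  have h2 : ((111 : ℕ) : ℚ) - 1 = 110 := by norm_num
  rw [h2]
  exact this

end Pool.Agent.Results.MP_693840_co.Disproof
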